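import Mathlib
import Pool.Agent.H39R3.PB.Basic
import Pool.Agent.H476R2.Pal.SDefs

/-!
# Palindromes with at most five prime factors in every even base: tasks

Port to even bases `b` of `Pool.Agent.H985R2.PalT9a/b` (squares) and `Pool.Agent.H476R2.Pal.F2/F4` (weighted
sieve); the sieve theorems (`Pool.Agent.H472R2.PalQ9.lower2`, `Pool.Agent.H476R2.Pal.upper2`) sieve by the primes
not dividing `10` and are transferred to the primes not dividing `b` (`TaskTr`, `TaskFiv`).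
-/

set_option autoImplicit false

namespace Pool.Agent.H39R3.PS

open Finset Filter Topology Pool.Agent.Helper112 Pool.Agent.H39R3.PB
open Pool.Agent.H476R2.Pal (PZ VZ sift rem Rem)

/-- mean of `f` over the fractions `a / M` -/
noncomputable def EM (M : ℕ) (f : ℝ → ℝ) : ℝ := (∑ a ∈ range M, f ((a : ℝ) / M)) / M

/-- SA (port of `Pool.Agent.H985R2.Pal.sqA`) -/
def TaskSA : Prop := ∀ b : ℕ, 2 ≤ b → ∀ L K J M : ℕ, K ≤ J → 1 ≤ J → J ≤ L → b ^ (2 * J) ≤ M →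
    M.Coprime (2 * b) →
    EM M (fun α => Ps b L 0 K α ^ 4 * Ps b L K (J - K) α ^ 2) ≤ (3 / 4) ^ K / (b : ℝ) ^ J

/-- SB (port of `Pool.Agent.H985R2.Pal.sqB`) -/
def TaskSB : Prop := ∀ b : ℕ, 2 ≤ b → ∀ (L A J P : ℕ) (T : ℝ), A + J ≤ L →
    (∀ n : ℕ, 1 ≤ n → n ≤ b ^ (2 * L + 1) → (n.divisors.card : ℝ) ≤ T) → P ≤ b * b ^ J → 1 ≤ P →
    ∑ m ∈ (Ico P (2 * P)).filter (fun m => m.Coprime (2 * b)),
      EM (m ^ 2) (fun α => Ps b L A J α ^ 2) ≤ b + T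

/-- one dyadic block of square moduli -/
def SqBlockB (b : ℕ) : Prop := ∀ (L k J P : ℕ) (T : ℝ),
    (∀ n : ℕ, 1 ≤ n → n ≤ b ^ (2 * L + 1) → (n.divisors.card : ℝ) ≤ T) →
    4 * k ≤ J → 1 ≤ J → 4 * k + 2 * J ≤ L → b ^ J ≤ P → P ≤ b * b ^ J →
    ∑ m ∈ (Ico P (2 * P)).filter (fun m => m.Coprime (2 * b)), cnt b L (m ^ 2) 0 ≤
      10 * b * (b : ℝ) ^ L * T * (3 / 4) ^ k

/-- SC (port of `Pool.Agent.H985R2.Pal.sq_block` and the lemmas before it from `cnt_le` on) -/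
def TaskSC : Prop := TaskSA → TaskSB → ∀ b : ℕ, 2 ≤ b → SqBlockB b

open Classical in
/-- palindromes divisible by the square of a large integer are rare -/
def SquaresB (b : ℕ) : Prop := ∀ (ε : ℝ), 0 < ε → ∀ (A : ℕ), ∀ᶠ L : ℕ in atTop,
    (((univ : Finset (Fin L → Fin b)).filter (fun m => ∃ p : ℕ, p.Coprime (2 * b) ∧
      (b : ℝ) ^ ((L : ℝ) / 50) ≤ p ∧ (p : ℝ) ≤ (b : ℝ) ^ ((1 / 2 - ε) * L) ∧ p ^ 2 ∣ pv b L m)).card : ℝ)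
      ≤ (b : ℝ) ^ L / (L : ℝ) ^ A

/-- SD (port of `Pool.Agent.H985R2.Pal.squares`, file PalT9b) -/
def TaskSD : Prop := ∀ b : ℕ, 2 ≤ b → SqBlockB b → SquaresB b

/-- Tr: adding the primes dividing `B` at random.  Take `M = B^k` with `2^k > D` and
`v' (i, r) = v i * gcd r M` (for `B = 1` trivial). -/
def TaskTr : Prop := ∀ (B : ℕ), 1 ≤ B → B.Coprime 10 → ∀ (ι : Type) (S : Finset ι) (v : ι → ℕ) (X D : ℝ),
    0 ≤ X → 1 ≤ D → (∀ i ∈ S, (v i).Coprime B) → ∃ (M : ℕ) (v' : ι × ℕ → ℕ), 0 < M ∧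
    (∀ z : ℕ, B < z → ∀ d : ℕ, d.Coprime B →
      sift (S ×ˢ range M) v' d z = (B.totient : ℝ) / B * M * sift S v d z) ∧
    Rem (S ×ˢ range M) v' (X * M) D ≤ M * (∑ q ∈ Icc 1 ⌊D⌋₊, (q.divisors.card : ℝ) ^ 2 / q) *
      ∑ q ∈ (Icc 1 ⌊D⌋₊).filter (fun q => q.Coprime (10 * B)), (q.divisors.card : ℝ) ^ 2 * |rem S v X q|

/-- level -/
noncomputable def Db (b L : ℕ) : ℝ := (b : ℝ) ^ ((1 / 2 - 1 / 400 : ℝ) * L)

/-- the palindromes with leading digit `1` that are prime to `10` -/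
def S1 (b L : ℕ) : Finset (Fin L → Fin b) := (univ : Finset (Fin L → Fin b)).filter fun m => (pv b L m).Coprime 10

/-- the sifting limit -/
noncomputable def zb (b L : ℕ) : ℕ := ⌈Db b L ^ (1 / 8 : ℝ)⌉₊

/-- the density of the numbers prime to `10` among the palindromes with leading digit `1` (base `b` even) -/
noncomputable def dn (b : ℕ) : ℝ := if 5 ∣ b then 1 else 4 / 5

/-- Fiv: level of distribution for `S1`.  For `5 ∣ b`, `S1 = univ`; otherwise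
`#{m ∈ S1 : q ∣ pv} = #{m : q ∣ pv} - #{m : 5 q ∣ pv}` -/
def TaskFiv : Prop := ∀ b : ℕ, 4 ≤ b → 2 ∣ b → BVB b → ∀ A : ℕ, ∀ᶠ L : ℕ in atTop,
    ∑ q ∈ (Icc 1 ⌊Db b L⌋₊).filter (fun q => q.Coprime (10 * b)),
      (q.divisors.card : ℝ) ^ 2 * |rem (S1 b L) (pv b L) (dn b * (b : ℝ) ^ L) q| ≤ (b : ℝ) ^ L / (L : ℝ) ^ A

/-- the sieve bounds -/
def SieveB (b : ℕ) : Prop := ∃ κ : ℝ, 0 < κ ∧ ∀ᶠ L : ℕ in atTop,
    95 / 100 * κ * (b : ℝ) ^ L * VZ (zb b L) - (b : ℝ) ^ L / (L : ℝ) ^ 3 ≤ sift (S1 b L) (pv b L) 1 (zb b L) ∧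
    ∑ p ∈ (range ⌈Db b L ^ (999 / 1000 : ℝ)⌉₊).filter
        (fun p : ℕ => p.Prime ∧ ¬ p ∣ 10 ∧ Db b L ^ (1 / 8 : ℝ) ≤ p),
      (1 - Real.log p / (999 / 1000 * Real.log (Db b L))) * sift (S1 b L) (pv b L) p (zb b L) ≤
      3 / 2 * κ * (b : ℝ) ^ L * VZ (zb b L) + (b : ℝ) ^ L / (L : ℝ) ^ 3

/-- Sv: from `Pool.Agent.H472R2.PalQ9.lower2` and `Pool.Agent.H476R2.Pal.upper2`, applied with `D = Db b L` to
the family of `TaskTr`, `B` = the part of `b` prime to `10`, `X = dn b * b ^ L` -/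
def TaskSv : Prop := TaskTr → TaskFiv → ∀ b : ℕ, 4 ≤ b → 2 ∣ b → BVB b → SieveB b

/-- Go (port of `Pool.Agent.H476R2.Pal.good4`) -/
def TaskGo : Prop := ∀ b : ℕ, 4 ≤ b → 2 ∣ b → ∀ L n : ℕ, 1000 ≤ L → b < zb b L →
    b ^ (2 * L) < n → n < b ^ (2 * L + 1) →
    n.Coprime (10 * b) → n.Coprime (PZ (zb b L)) →
    (∀ p : ℕ, p.Coprime (2 * b) → (b : ℝ) ^ ((L : ℝ) / 50) ≤ p → (p : ℝ) ≤ Db b L → ¬ p ^ 2 ∣ n) →
    0 < 1 - 11 / 20 * ∑ p ∈ ((range ⌈Db b L ^ (999 / 1000 : ℝ)⌉₊).filter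
      (fun p : ℕ => p.Prime ∧ ¬ p ∣ 10 ∧ Db b L ^ (1 / 8 : ℝ) ≤ p)).filter (fun p => p ∣ n),
        (1 - Real.log p / (999 / 1000 * Real.log (Db b L))) →
    n.primeFactorsList.length ≤ 5 ∧ ∀ p ∈ n.primeFactorsList, (b : ℝ) ^ ((L : ℝ) / 17) < p

/-- at least `c b^L / L` palindromes with `2L+1` digits have at most five prime factors -/
def AlmostB (b : ℕ) : Prop := ∃ c : ℝ, 0 < c ∧ ∀ᶠ L : ℕ in atTop,
    c * (b : ℝ) ^ L / L ≤ (((range (b ^ (2 * L + 1))).filter (fun n => b ^ (2 * L) ≤ n ∧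
      (Nat.digits b n).reverse = Nat.digits b n ∧ n.primeFactorsList.length ≤ 5 ∧
      ∀ p ∈ n.primeFactorsList, (b : ℝ) ^ ((L : ℝ) / 17) < p)).card : ℝ)

/-- Fi (port of `Pool.Agent.H476R2.Pal.final2_of`, file F4; `V_lim` is `Pool.Agent.H503R2.PalS4.V_lim`; the facts on
`pv` are in `Pool.Agent.H181R5.PB_T9`) -/
def TaskFi : Prop := TaskGo → ∀ b : ℕ, 4 ≤ b → 2 ∣ b → SieveB b → SquaresB b → AlmostB b

end Pool.Agent.H39R3.PS
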