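import Mathlib
import Pool.Agent.H39R3.PS.Defs
import Pool.Agent.H476R2.Pal.F1
import Pool.Agent.H503R2.PalS4
import Pool.Agent.H181R5.PB_T9

set_option autoImplicit false

namespace Pool.Agent.H39R3.PSFi

open Finset Filter Topology Pool.Agent.H39R3.PB Pool.Agent.H39R3.PS
open Pool.Agent.H476R2.Pal (PZ VZ sift rem Rem weight_sum count_pos)
open Pool.Agent.H181R5.PBT9 (pvl palin palin_eq pvl_inj pvl_pv)

lemma Db_pos {b : ℕ} (hb : 4 ≤ b) (L : ℕ) : 0 < Db b L := by
  have : (0 : ℝ) < b := by exact_mod_cast (by omega : 0 < b)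
  unfold Db; positivity

lemma log_Db {b : ℕ} (hb : 4 ≤ b) (L : ℕ) : Real.log (Db b L) = (1 / 2 - 1 / 400 : ℝ) * L * Real.log b := by
  have : (0 : ℝ) < b := by exact_mod_cast (by omega : 0 < b)
  unfold Db; rw [Real.log_rpow this]

lemma tendsto_zb {b : ℕ} (hb : 4 ≤ b) : Tendsto (fun L : ℕ => zb b L) atTop atTop := by
  have hb0 : (0 : ℝ) < b := by exact_mod_cast (by omega : 0 < b)
  have hb1 : (1 : ℝ) < b := by exact_mod_cast (by omega : 1 < b)
  have h1 : Tendsto (fun L : ℕ => (b : ℝ) ^ ((1 / 2 - 1 / 400 : ℝ) / 8 * (L : ℝ))) atTop atTop := by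
    apply (tendsto_rpow_atTop_of_base_gt_one b hb1).comp
    exact (tendsto_natCast_atTop_atTop).const_mul_atTop (by norm_num)
  have h2 : Tendsto (fun L : ℕ => Db b L ^ (1 / 8 : ℝ)) atTop atTop := by
    refine h1.congr fun L => ?_
    unfold Db
    rw [← Real.rpow_mul hb0.le]
    congr 1; ring
  exact tendsto_nat_ceil_atTop.comp h2

lemma logz_le {b : ℕ} (hb : 4 ≤ b) {L : ℕ} (hL : 1 ≤ L) :
    Real.log (zb b L : ℝ) ≤ (1 + Real.log b) * L := by
  have hb0 : (0 : ℝ) < b := by exact_mod_cast (by omega : 0 < b)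
  have hb1 : (1 : ℝ) < b := by exact_mod_cast (by omega : 1 < b)
  have hlb : 0 < Real.log b := Real.log_pos hb1
  have hL' : (1 : ℝ) ≤ L := by exact_mod_cast hL
  have hD1 : 1 ≤ Db b L := by
    unfold Db
    apply Real.one_le_rpow hb1.le
    positivity
  have h0 : 1 ≤ Db b L ^ (1 / 8 : ℝ) := Real.one_le_rpow hD1 (by norm_num)
  have h1 : (zb b L : ℝ) ≤ 2 * Db b L ^ (1 / 8 : ℝ) := by
    have := Nat.ceil_lt_add_one (show 0 ≤ Db b L ^ (1 / 8 : ℝ) by linarith)
    unfold zb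
    linarith
  have h2 : (0 : ℝ) < (zb b L : ℝ) := by
    have := Nat.le_ceil (Db b L ^ (1 / 8 : ℝ))
    unfold zb
    linarith
  have h5 : Real.log 2 ≤ 1 := by linarith [Real.log_two_lt_d9]
  calc Real.log (zb b L : ℝ) ≤ Real.log (2 * Db b L ^ (1 / 8 : ℝ)) := Real.log_le_log h2 h1
    _ = Real.log 2 + 1 / 8 * ((1 / 2 - 1 / 400) * L * Real.log b) := by
        rw [Real.log_mul (by norm_num) (by positivity), Real.log_rpow (Db_pos hb L), log_Db hb]
    _ ≤ 1 * L + 1 * (L * Real.log b) := by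
        have : 0 ≤ L * Real.log b := by positivity
        nlinarith
    _ = (1 + Real.log b) * L := by ring

lemma pv_coprime {b L : ℕ} (hL : 1 ≤ L) (m : Fin L → Fin b) : (pv b L m).Coprime b := by
  have h1 : b ∣ b ^ (2 * L) + ∑ c : Fin L, (m c : ℕ) * fr b L c := by
    refine dvd_add (dvd_pow_self b (by omega)) (Finset.dvd_sum fun c _ => Dvd.dvd.mul_left ?_ _)
    unfold fr
    have hc := c.2
    split_ifs with h
    · exact dvd_pow_self b (by omega)
    · exact dvd_add (dvd_pow_self b (by omega)) (dvd_pow_self b (by omega))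
  obtain ⟨t, ht⟩ := h1
  have h2 : pv b L m = 1 + b * t := by
    rw [← ht]; unfold pv; ring
  rw [h2]
  exact (Nat.coprime_add_mul_left_left 1 b t).2 (Nat.coprime_one_left b)

lemma pv_mem {b L : ℕ} (hb : 4 ≤ b) (hL : 1 ≤ L) (m : Fin L → Fin b) : pv b L m ∈ palin b L := by
  rw [palin_eq (by omega) L hL, mem_image]
  refine ⟨(1, m), ?_, ?_⟩
  · rw [mem_product, mem_Icc]
    exact ⟨⟨le_rfl, by omega⟩, mem_univ _⟩
  · rw [pvl_pv le_rfl]; simp

lemma pv_inj {b L : ℕ} (hb : 4 ≤ b) (hL : 1 ≤ L) : Function.Injective (pv b L) := by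
  intro m m' h
  have h1 := pvl_inj (b := b) (by omega) L hL (show (1, m) ∈ {x : ℕ × (Fin L → Fin b) | x.1 < b} from by
    show 1 < b; omega) (show (1, m') ∈ {x : ℕ × (Fin L → Fin b) | x.1 < b} from by show 1 < b; omega)
    (by simp only [pvl_pv le_rfl, h])
  exact (Prod.mk.inj h1).2

lemma pv_gt {b L : ℕ} (m : Fin L → Fin b) : b ^ (2 * L) < pv b L m := by
  unfold pv; omega

open Classical in
theorem taskFi : TaskFi := by
  intro hGo b hb h2 hS hQ
  obtain ⟨κ, hκ, hS⟩ := hS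
  have hV := Pool.Agent.H503R2.PalS4.V_lim
  set K : ℝ := 5 / 2 * Real.exp (-Real.eulerMascheroniConstant) with hK
  have hK0 : 0 < K := by positivity
  have hb0 : (0 : ℝ) < b := by exact_mod_cast (by omega : 0 < b)
  have hb1 : (1 : ℝ) < b := by exact_mod_cast (by omega : 1 < b)
  have hlb : 0 < Real.log b := Real.log_pos hb1
  set E : ℝ := 1 + Real.log b with hE
  have hE0 : 0 < E := by positivity
  set c0 : ℝ := κ * K / (32 * E) with hc0
  have hc00 : 0 < c0 := by positivity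
  refine ⟨c0, hc00, ?_⟩
  have e1 : ∀ᶠ L : ℕ in atTop, K / 2 < VZ (zb b L) * Real.log (zb b L : ℝ) :=
    (hV.comp (tendsto_zb hb)).eventually_const_lt (by linarith)
  have e4 := hQ (1 / 400) (by norm_num) 3
  have e5 : ∀ᶠ L : ℕ in atTop, (max 1000 (3 / c0) : ℝ) ≤ L :=
    tendsto_natCast_atTop_atTop.eventually_ge_atTop _
  have e6 : ∀ᶠ L : ℕ in atTop, b + 1 ≤ zb b L := (tendsto_zb hb).eventually_ge_atTop _
  filter_upwards [e1, hS, e4, e5, e6] with L h1 hSL h4 h5 h6
  obtain ⟨hlow, hup⟩ := hSL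
  have hL1000 : (1000 : ℝ) ≤ L := (le_max_left _ _).trans h5
  have hLK : 3 / c0 ≤ L := (le_max_right _ _).trans h5
  have hL : 1000 ≤ L := by exact_mod_cast hL1000
  have hL1 : 1 ≤ L := by omega
  have hL0 : (0 : ℝ) < L := by linarith
  set z := zb b L with hz
  have hlz := logz_le hb hL1
  rw [← hz] at hlz
  have hVpos : 0 < VZ z := by
    unfold VZ
    apply prod_pos
    intro p hp
    rw [mem_filter] at hp
    have : (1 : ℝ) < p := by exact_mod_cast hp.2.1.one_lt
    have : 1 / (p : ℝ) < 1 := by rw [div_lt_one (by linarith)]; exact this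
    linarith
  have hVL : K / (2 * (E * L)) ≤ VZ z := by
    rw [div_le_iff₀ (by positivity)]
    have h7 : VZ z * Real.log (z : ℝ) ≤ VZ z * (E * L) := mul_le_mul_of_nonneg_left hlz hVpos.le
    linarith
  set X : ℝ := (b : ℝ) ^ L with hX
  have hX0 : 0 < X := by positivity
  set P := (range ⌈Db b L ^ (999 / 1000 : ℝ)⌉₊).filter
    (fun p : ℕ => p.Prime ∧ ¬ p ∣ 10 ∧ Db b L ^ (1 / 8 : ℝ) ≤ p) with hP
  set c : ℕ → ℝ := fun p => 1 - Real.log p / (999 / 1000 * Real.log (Db b L)) with hc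
  set w : (Fin L → Fin b) → ℝ := fun m => 1 - 11 / 20 * ∑ p ∈ P.filter (fun p => p ∣ pv b L m), c p with hw
  have hws := weight_sum (S1 b L) (pv b L) z P c (11 / 20)
  have hlD0 : 0 < Real.log (Db b L) := by
    rw [log_Db hb]
    positivity
  have hcnn : ∀ p ∈ P, 0 ≤ c p := by
    intro p hp
    rw [hP, mem_filter, mem_range] at hp
    have h6 : (p : ℝ) < Db b L ^ (999 / 1000 : ℝ) := Nat.lt_ceil.1 hp.1
    have h7 : Real.log p ≤ 999 / 1000 * Real.log (Db b L) := by
      rw [← Real.log_rpow (Db_pos hb L)]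
      exact Real.log_le_log (by exact_mod_cast hp.2.1.pos) h6.le
    simp only [hc]
    rw [sub_nonneg, div_le_one (by positivity)]
    exact h7
  set T := (S1 b L).filter (fun m => (pv b L m).Coprime (PZ z)) with hT
  set B := (univ : Finset (Fin L → Fin b)).filter (fun m => ∃ p : ℕ, p.Coprime (2 * b) ∧
        (b : ℝ) ^ ((L : ℝ) / 50) ≤ p ∧ (p : ℝ) ≤ (b : ℝ) ^ ((1 / 2 - 1 / 400 : ℝ) * L) ∧
          p ^ 2 ∣ pv b L m) with hB
  have hcp := count_pos T B w (by
    intro m _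
    have : 0 ≤ ∑ p ∈ P.filter (fun p => p ∣ pv b L m), c p :=
      sum_nonneg fun p hp => hcnn p (mem_filter.1 hp).1
    simp only [hw]
    linarith)
  have hsumT : ∑ m ∈ T, w m = sift (S1 b L) (pv b L) 1 z -
      11 / 20 * ∑ p ∈ P, c p * sift (S1 b L) (pv b L) p z := hws
  have hmain : κ * X * VZ z / 8 ≤ ∑ m ∈ T, w m + 2 * (X / (L : ℝ) ^ 3) := by
    rw [hsumT]
    have h8 : 0 ≤ X / (L : ℝ) ^ 3 := by positivity
    have hup'' : ∑ p ∈ P, c p * sift (S1 b L) (pv b L) p z ≤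
        3 / 2 * κ * X * VZ z + X / (L : ℝ) ^ 3 := hup
    have hlow'' : 95 / 100 * κ * X * VZ z - X / (L : ℝ) ^ 3 ≤ sift (S1 b L) (pv b L) 1 z := hlow
    generalize X / (L : ℝ) ^ 3 = r at *
    have e1 : 3 / 2 * κ * X * VZ z = 3 / 2 * (κ * X * VZ z) := by ring
    have e2 : 95 / 100 * κ * X * VZ z = 95 / 100 * (κ * X * VZ z) := by ring
    rw [e1] at hup''
    rw [e2] at hlow''
    generalize κ * X * VZ z = R at *
    linarith
  -- the injection
  have hcard : ((T.filter (fun i => 0 < w i)) \ B).card ≤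
      ((range (b ^ (2 * L + 1))).filter (fun n => b ^ (2 * L) ≤ n ∧
      (Nat.digits b n).reverse = Nat.digits b n ∧ n.primeFactorsList.length ≤ 5 ∧
      ∀ p ∈ n.primeFactorsList, (b : ℝ) ^ ((L : ℝ) / 17) < p)).card := by
    apply card_le_card_of_injOn (pv b L)
    · intro m hm
      rw [mem_coe, Finset.mem_sdiff, mem_filter, hT, mem_filter] at hm
      obtain ⟨⟨⟨hm1, hs⟩, hwm⟩, hmB⟩ := hm
      have hpm := pv_mem hb hL1 m
      rw [palin, mem_filter, mem_range] at hpm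
      obtain ⟨hd3, hd2, hd1⟩ := hpm
      have hc10 : (pv b L m).Coprime 10 := by
        rw [S1, mem_filter] at hm1
        exact hm1.2
      have hg := hGo b hb h2 L (pv b L m) hL (by omega) (pv_gt m) hd3
        (Nat.Coprime.mul_right hc10 (pv_coprime hL1 m)) hs (by
        intro p hp1 hp2 hp3 hp4
        apply hmB
        rw [hB, mem_filter]
        exact ⟨mem_univ _, p, hp1, hp2, hp3, hp4⟩) hwm
      rw [mem_coe, mem_filter, mem_range]
      exact ⟨hd3, hd2, hd1, hg.1, hg.2⟩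
    · intro a _ a' _ hab
      exact pv_inj hb hL1 hab
  have hcard' : (((T.filter (fun i => 0 < w i)) \ B).card : ℝ) ≤
      (((range (b ^ (2 * L + 1))).filter (fun n => b ^ (2 * L) ≤ n ∧
      (Nat.digits b n).reverse = Nat.digits b n ∧ n.primeFactorsList.length ≤ 5 ∧
      ∀ p ∈ n.primeFactorsList, (b : ℝ) ^ ((L : ℝ) / 17) < p)).card : ℝ) := by exact_mod_cast hcard
  refine le_trans ?_ (hcp.trans hcard')
  have hBc : (B.card : ℝ) ≤ X / (L : ℝ) ^ 3 := by
    refine le_trans (le_of_eq ?_) h4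
    rw [hB]
  have h10 : κ * X * (K / (2 * (E * L))) / 8 ≤ κ * X * VZ z / 8 := by gcongr
  have h11 : X / (L : ℝ) ^ 3 * 3 ≤ c0 * X / L := by
    rw [div_mul_eq_mul_div, div_le_div_iff₀ (by positivity) (by positivity)]
    have h12 : 3 ≤ c0 * L := by rwa [div_le_iff₀ hc00, mul_comm] at hLK
    have h13 : 3 ≤ c0 * L ^ 2 := by nlinarith
    calc X * 3 * L = X * L * 3 := by ring
      _ ≤ X * L * (c0 * L ^ 2) := by gcongr
      _ = _ := by ring
  have h14 : κ * X * (K / (2 * (E * L))) / 8 = 2 * (c0 * X / L) := by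
    rw [hc0]; field_simp; ring
  rw [h14] at h10
  linarith

end Pool.Agent.H39R3.PSFi
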