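import Mathlib
import Pool.Agent.H39R3.PS.Defs
import Pool.Agent.H39R3.PB.Final

/-! Assembly. -/

set_option autoImplicit false

namespace Pool.Agent.H39R3.PS

open Pool.Agent.H39R3.PB

theorem almostB (hA : TaskSA) (hB : TaskSB) (hC : TaskSC) (hD : TaskSD) (hTr : TaskTr) (hFiv : TaskFiv)
    (hSv : TaskSv) (hGo : TaskGo) (hFi : TaskFi) {b : ℕ} (hb : 4 ≤ b) (h2 : 2 ∣ b) (hBV : BVB b) : AlmostB b :=
  hFi hGo b hb h2 (hSv hTr hFiv b hb h2 hBV) (hD b (by omega) (hC hA hB b (by omega)))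

end Pool.Agent.H39R3.PS
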