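import Pool.Agent.H39R3.PS.Defs

/-!
TaskFiv of project H39-PAL5 (written by helper933).
-/

set_option autoImplicit false

namespace Pool.Agent.H39R3.PS

open Finset Filter Topology Pool.Agent.Helper112 Pool.Agent.H39R3.PB
open Pool.Agent.H476R2.Pal (PZ VZ sift rem Rem)

namespace FivAux

lemma dvd_fr {b L : ℕ} (c : Fin L) : b ∣ fr b L c := by
  unfold fr
  have hc := c.2
  split_ifs with h
  · exact dvd_pow_self b (by omega)
  · exact dvd_add (dvd_pow_self b (by omega)) (dvd_pow_self b (by omega))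

lemma pv_coprime {b L : ℕ} (hL : 1 ≤ L) (m : Fin L → Fin b) : (pv b L m).Coprime b := by
  have h1 : b ∣ b ^ (2 * L) + ∑ c : Fin L, (m c : ℕ) * fr b L c :=
    dvd_add (dvd_pow_self b (by omega)) (Finset.dvd_sum fun c _ => (dvd_fr c).mul_left _)
  obtain ⟨k, hk⟩ := h1
  have h2 : pv b L m = 1 + b * k := by
    unfold pv
    rw [← hk]; ring
  rw [h2, Nat.coprime_add_mul_left_left]
  exact Nat.coprime_one_left b

lemma cnt_zero (b L q : ℕ) :
    cnt b L q 0 = (((univ : Finset (Fin L → Fin b)).filter (fun m => q ∣ pv b L m)).card : ℝ) := by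
  unfold cnt
  have : (univ : Finset (Fin L → Fin b)).filter (fun m => pv b L m ≡ 0 [MOD q]) =
      (univ : Finset (Fin L → Fin b)).filter (fun m => q ∣ pv b L m) :=
    Finset.filter_congr (fun m _ => Nat.modEq_zero_iff_dvd)
  rw [this]

lemma rem_five {b L q : ℕ} (hL : 1 ≤ L) (h2 : 2 ∣ b) (h5 : 5 ∣ b) :
    rem (S1 b L) (pv b L) (dn b * (b : ℝ) ^ L) q = cnt b L q 0 - (b : ℝ) ^ L / q := by
  have h10 : 10 ∣ b := by
    have := Nat.Coprime.mul_dvd_of_dvd_of_dvd (by norm_num : Nat.Coprime 2 5) h2 h5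
    simpa using this
  have hS : S1 b L = univ := by
    unfold S1
    exact Finset.filter_true_of_mem fun m _ =>
      Nat.Coprime.coprime_dvd_right h10 (pv_coprime hL m)
  unfold rem
  rw [hS, cnt_zero]
  unfold dn
  rw [if_pos h5, one_mul]

lemma rem_not_five {b L q : ℕ} (hL : 1 ≤ L) (h2 : 2 ∣ b) (h5 : ¬ 5 ∣ b) (hq : q.Coprime 5) :
    rem (S1 b L) (pv b L) (dn b * (b : ℝ) ^ L) q =
      (cnt b L q 0 - (b : ℝ) ^ L / q) - (cnt b L (5 * q) 0 - (b : ℝ) ^ L / ((5 * q : ℕ) : ℝ)) := by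
  have key : ((S1 b L).filter (fun i => q ∣ pv b L i)).card +
      ((univ : Finset (Fin L → Fin b)).filter (fun m => 5 * q ∣ pv b L m)).card =
      ((univ : Finset (Fin L → Fin b)).filter (fun m => q ∣ pv b L m)).card := by
    have h1 : (S1 b L).filter (fun i => q ∣ pv b L i) =
        ((univ : Finset (Fin L → Fin b)).filter (fun m => q ∣ pv b L m)).filter
          (fun m => (pv b L m).Coprime 10) := by
      unfold S1
      rw [Finset.filter_filter, Finset.filter_filter]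
      exact Finset.filter_congr fun m _ => and_comm
    have h3 : (univ : Finset (Fin L → Fin b)).filter (fun m => 5 * q ∣ pv b L m) =
        ((univ : Finset (Fin L → Fin b)).filter (fun m => q ∣ pv b L m)).filter
          (fun m => ¬ (pv b L m).Coprime 10) := by
      rw [Finset.filter_filter]
      refine Finset.filter_congr fun m _ => ?_
      have hc2 : (pv b L m).Coprime 2 := Nat.Coprime.coprime_dvd_right h2 (pv_coprime hL m)
      have h10 : (pv b L m).Coprime 10 ↔ (pv b L m).Coprime 5 := by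
        have e : (10 : ℕ) = 2 * 5 := by norm_num
        rw [e, Nat.coprime_mul_iff_right]
        exact ⟨fun h => h.2, fun h => ⟨hc2, h⟩⟩
      have hc5 : ¬ (pv b L m).Coprime 5 ↔ 5 ∣ pv b L m := by
        rw [Nat.coprime_comm, Nat.Prime.coprime_iff_not_dvd (by norm_num : Nat.Prime 5), not_not]
      rw [h10, hc5]
      constructor
      · intro h
        exact ⟨(Dvd.intro_left 5 rfl).trans h, (Dvd.intro q rfl).trans h⟩
      · rintro ⟨ha, hb⟩
        exact Nat.Coprime.mul_dvd_of_dvd_of_dvd hq.symm hb ha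
    rw [h1, h3]
    exact Finset.card_filter_add_card_filter_not _
  have key' : (((S1 b L).filter (fun i => q ∣ pv b L i)).card : ℝ) =
      (((univ : Finset (Fin L → Fin b)).filter (fun m => q ∣ pv b L m)).card : ℝ) -
      (((univ : Finset (Fin L → Fin b)).filter (fun m => 5 * q ∣ pv b L m)).card : ℝ) := by
    rw [← key]; push_cast; ring
  unfold rem
  rw [key', cnt_zero, cnt_zero]
  unfold dn
  rw [if_neg h5]
  rcases Nat.eq_zero_or_pos q with h0 | h0
  · subst h0; simp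
  · have : (q : ℝ) ≠ 0 := by positivity
    push_cast
    field_simp
    ring

end FivAux

open FivAux in
theorem taskFiv : TaskFiv := by
  intro b hb h2 hBV A
  have hb0 : (0 : ℝ) < b := by positivity
  have hb1 : (1 : ℝ) < b := by
    have : (4 : ℝ) ≤ b := by exact_mod_cast hb
    linarith
  have hlarge : ∀ᶠ L : ℕ in atTop, (5 : ℝ) ≤ (b : ℝ) ^ ((1 / 800 : ℝ) * (L : ℝ)) := by
    have h1 : Tendsto (fun L : ℕ => ((b : ℝ) ^ (1 / 800 : ℝ)) ^ L) atTop atTop :=
      tendsto_pow_atTop_atTop_of_one_lt (Real.one_lt_rpow hb1 (by norm_num))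
    filter_upwards [h1.eventually_ge_atTop 5] with L hL
    rw [Real.rpow_mul hb0.le, Real.rpow_natCast]
    exact hL
  filter_upwards [hBV (1 / 800) (by norm_num) (A + 1), hlarge, eventually_ge_atTop 2] with
    L hR hL5 hL2
  have hR0 := hR (fun _ => 0)
  set R : ℝ := ∑ q ∈ (Icc 1 ⌊(b : ℝ) ^ ((1 / 2 - 1 / 800 : ℝ) * L)⌋₊).filter
      (fun q => q.Coprime (2 * b)),
      (q.divisors.card : ℝ) ^ 2 * |cnt b L q 0 - (b : ℝ) ^ L / q| with hRdef
  have hL1 : 1 ≤ L := by omega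
  have hLr : (2 : ℝ) ≤ L := by exact_mod_cast hL2
  have hD0 : 0 ≤ Db b L := by unfold Db; positivity
  have h5D : 5 * Db b L ≤ (b : ℝ) ^ ((1 / 2 - 1 / 800 : ℝ) * L) := by
    have e : ((1 / 2 - 1 / 800 : ℝ) * L) = (1 / 800 : ℝ) * L + (1 / 2 - 1 / 400 : ℝ) * L := by ring
    rw [e, Real.rpow_add hb0]
    unfold Db
    exact mul_le_mul_of_nonneg_right hL5 (by positivity)
  have hterm : ∀ q : ℕ, 0 ≤ (q.divisors.card : ℝ) ^ 2 * |cnt b L q 0 - (b : ℝ) ^ L / q| :=
    fun q => by positivity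
  have hfl : ∀ q : ℕ, q ≤ ⌊Db b L⌋₊ → (q : ℝ) ≤ Db b L := fun q hq =>
    (Nat.cast_le.2 hq).trans (Nat.floor_le hD0)
  have hA : ∑ q ∈ (Icc 1 ⌊Db b L⌋₊).filter (fun q => q.Coprime (10 * b)),
      (q.divisors.card : ℝ) ^ 2 * |cnt b L q 0 - (b : ℝ) ^ L / q| ≤ R := by
    rw [hRdef]
    refine Finset.sum_le_sum_of_subset_of_nonneg ?_ (fun q _ _ => hterm q)
    intro q hq
    rw [Finset.mem_filter, Finset.mem_Icc] at hq ⊢
    refine ⟨⟨hq.1.1, Nat.le_floor ?_⟩, ?_⟩
    · have := hfl q hq.1.2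
      linarith
    · exact Nat.Coprime.coprime_dvd_right (mul_dvd_mul_right (by norm_num) b) hq.2
  have hfin : 2 * R ≤ (b : ℝ) ^ L / (L : ℝ) ^ A := by
    have h1 : 2 * R ≤ 2 * ((b : ℝ) ^ L / (L : ℝ) ^ (A + 1)) := by linarith
    refine h1.trans ?_
    rw [pow_succ, ← mul_div_assoc, div_le_div_iff₀ (by positivity) (by positivity)]
    have hbL : 0 ≤ (b : ℝ) ^ L * (L : ℝ) ^ A := by positivity
    nlinarith
  have hR_nonneg : 0 ≤ R := by
    rw [hRdef]; exact Finset.sum_nonneg fun q _ => hterm q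
  by_cases h5 : 5 ∣ b
  · have : ∑ q ∈ (Icc 1 ⌊Db b L⌋₊).filter (fun q => q.Coprime (10 * b)),
        (q.divisors.card : ℝ) ^ 2 * |rem (S1 b L) (pv b L) (dn b * (b : ℝ) ^ L) q| =
        ∑ q ∈ (Icc 1 ⌊Db b L⌋₊).filter (fun q => q.Coprime (10 * b)),
        (q.divisors.card : ℝ) ^ 2 * |cnt b L q 0 - (b : ℝ) ^ L / q| :=
      Finset.sum_congr rfl fun q _ => by rw [rem_five hL1 h2 h5]
    rw [this]
    linarith
  · have hB : ∑ q ∈ (Icc 1 ⌊Db b L⌋₊).filter (fun q => q.Coprime (10 * b)),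
        ((5 * q).divisors.card : ℝ) ^ 2 *
          |cnt b L (5 * q) 0 - (b : ℝ) ^ L / ((5 * q : ℕ) : ℝ)| ≤ R := by
      rw [hRdef]
      have hinj : ∀ x ∈ (Icc 1 ⌊Db b L⌋₊).filter (fun q => q.Coprime (10 * b)),
          ∀ y ∈ (Icc 1 ⌊Db b L⌋₊).filter (fun q => q.Coprime (10 * b)),
          5 * x = 5 * y → x = y := fun x _ y _ h => by omega
      rw [← Finset.sum_image (f := fun q : ℕ => (q.divisors.card : ℝ) ^ 2 *
        |cnt b L q 0 - (b : ℝ) ^ L / (q : ℝ)|) (g := fun q => 5 * q) hinj]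
      refine Finset.sum_le_sum_of_subset_of_nonneg ?_ (fun q _ _ => hterm q)
      intro q' hq'
      obtain ⟨q, hq, rfl⟩ := Finset.mem_image.1 hq'
      rw [Finset.mem_filter, Finset.mem_Icc] at hq ⊢
      refine ⟨⟨by omega, Nat.le_floor ?_⟩, ?_⟩
      · have := hfl q hq.1.2
        push_cast
        linarith
      · have h5b : Nat.Coprime 5 (2 * b) := by
          rw [Nat.Prime.coprime_iff_not_dvd (by norm_num : Nat.Prime 5)]
          intro hd
          rcases (Nat.Prime.dvd_mul (by norm_num : Nat.Prime 5)).1 hd with h | h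
          · norm_num at h
          · exact h5 h
        have hqb : Nat.Coprime q (2 * b) :=
          Nat.Coprime.coprime_dvd_right (mul_dvd_mul_right (by norm_num) b) hq.2
        exact Nat.Coprime.mul_left h5b hqb
    have hC : ∑ q ∈ (Icc 1 ⌊Db b L⌋₊).filter (fun q => q.Coprime (10 * b)),
        (q.divisors.card : ℝ) ^ 2 * |rem (S1 b L) (pv b L) (dn b * (b : ℝ) ^ L) q| ≤
        ∑ q ∈ (Icc 1 ⌊Db b L⌋₊).filter (fun q => q.Coprime (10 * b)),
        ((q.divisors.card : ℝ) ^ 2 * |cnt b L q 0 - (b : ℝ) ^ L / q| +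
        ((5 * q).divisors.card : ℝ) ^ 2 *
          |cnt b L (5 * q) 0 - (b : ℝ) ^ L / ((5 * q : ℕ) : ℝ)|) := by
      refine Finset.sum_le_sum fun q hq => ?_
      rw [Finset.mem_filter, Finset.mem_Icc] at hq
      have hq5 : q.Coprime 5 :=
        Nat.Coprime.coprime_dvd_right (Dvd.dvd.mul_right (by norm_num) b) hq.2
      rw [rem_not_five hL1 h2 h5 hq5]
      have hdiv : (q.divisors.card : ℝ) ≤ ((5 * q).divisors.card : ℝ) := by
        have : q.divisors ⊆ (5 * q).divisors :=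
          Nat.divisors_subset_of_dvd (by omega) (Dvd.intro_left 5 rfl)
        exact_mod_cast Finset.card_le_card this
      have hdiv2 : (q.divisors.card : ℝ) ^ 2 ≤ ((5 * q).divisors.card : ℝ) ^ 2 :=
        pow_le_pow_left₀ (by positivity) hdiv 2
      have habs := abs_sub (cnt b L q 0 - (b : ℝ) ^ L / q)
        (cnt b L (5 * q) 0 - (b : ℝ) ^ L / ((5 * q : ℕ) : ℝ))
      calc _ ≤ (q.divisors.card : ℝ) ^ 2 * (|cnt b L q 0 - (b : ℝ) ^ L / q| +
            |cnt b L (5 * q) 0 - (b : ℝ) ^ L / ((5 * q : ℕ) : ℝ)|) :=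
            mul_le_mul_of_nonneg_left habs (by positivity)
        _ = (q.divisors.card : ℝ) ^ 2 * |cnt b L q 0 - (b : ℝ) ^ L / q| +
            (q.divisors.card : ℝ) ^ 2 *
              |cnt b L (5 * q) 0 - (b : ℝ) ^ L / ((5 * q : ℕ) : ℝ)| := by ring
        _ ≤ _ := by
            gcongr
    rw [Finset.sum_add_distrib] at hC
    linarith

end Pool.Agent.H39R3.PS
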