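import Mathlib
import Pool.Agent.H39R3.PS.Defs
import Pool.Agent.H476R2.Pal.F1

/-! # Task Go of project H39-PAL5 (second prover helper192): port of `good` to base `b` -/

set_option autoImplicit false

namespace Pool.Agent.H39R3.PS.Go192

open Finset Filter Topology Pool.Agent.Helper112 Pool.Agent.H39R3.PB
open Pool.Agent.H476R2.Pal (PZ VZ sift rem Rem omega_bound)

lemma prime_dvd_PZ {z p : ℕ} (hp : p.Prime) (hz : p < z) (h10 : ¬ p ∣ 10) : p ∣ PZ z := by
  unfold PZ
  exact dvd_prod_of_mem (fun p => p) (by rw [mem_filter, mem_range]; exact ⟨hz, hp, h10⟩)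

theorem t : TaskGo := by
  intro b hb h2b L n hL hzb h1 h2 hc hs hsq hw
  unfold zb at hs hzb
  have hb' : (4 : ℝ) ≤ b := by exact_mod_cast hb
  have hb0 : (0 : ℝ) < b := by linarith
  have hb1 : (1 : ℝ) < b := by linarith
  have hL' : (1000 : ℝ) ≤ L := by exact_mod_cast hL
  have hL0 : (0 : ℝ) < L := by linarith
  have hn0 : n ≠ 0 := by rintro rfl; simp at h1
  have hnpos : 0 < n := Nat.pos_of_ne_zero hn0
  have hl10 : 0 < Real.log b := Real.log_pos hb1
  have hD0 : 0 < Db b L := by unfold Db; positivity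
  have hlD : Real.log (Db b L) = (1 / 2 - 1 / 400 : ℝ) * L * Real.log b := by
    unfold Db; rw [Real.log_rpow hb0]
  have hlD0 : 0 < Real.log (Db b L) := by
    rw [hlD]
    have : (0 : ℝ) < 1 / 2 - 1 / 400 := by norm_num
    positivity
  have hc10 : n.Coprime 10 := Nat.Coprime.coprime_mul_right_right hc
  have hcb : n.Coprime b := Nat.Coprime.coprime_mul_left_right hc
  have hnot : ∀ p : ℕ, p.Prime → p ∣ n → ¬ p ∣ 10 := by
    intro p hp hpn h
    have := Nat.dvd_gcd hpn h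
    rw [hc10] at this
    exact hp.one_lt.ne' (Nat.dvd_one.1 this)
  have hcop : ∀ p : ℕ, p.Prime → p ∣ n → p.Coprime (2 * b) := by
    intro p hp hpn
    apply Nat.Coprime.mul_right
    · rw [Nat.Prime.coprime_iff_not_dvd hp]
      intro h
      exact hnot p hp hpn (h.trans (by norm_num))
    · exact Nat.Coprime.coprime_dvd_left hpn hcb
  -- all prime factors are at least D^{1/8}
  have hbig : ∀ p : ℕ, p.Prime → p ∣ n → Db b L ^ (1 / 8 : ℝ) ≤ p := by
    intro p hp hpn
    by_contra hlt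
    push Not at hlt
    have h3 : p < ⌈Db b L ^ (1 / 8 : ℝ)⌉₊ := Nat.lt_ceil.2 hlt
    have h4 := prime_dvd_PZ hp h3 (hnot p hp hpn)
    have h5 := Nat.dvd_gcd hpn h4
    rw [hs] at h5
    exact hp.one_lt.ne' (Nat.dvd_one.1 h5)
  have hz8 : Db b L ^ (1 / 8 : ℝ) = (b : ℝ) ^ ((1 / 2 - 1 / 400 : ℝ) / 8 * L) := by
    unfold Db
    rw [← Real.rpow_mul hb0.le]
    congr 1; ring
  have h25 : (b : ℝ) ^ ((L : ℝ) / 17) < Db b L ^ (1 / 8 : ℝ) := by
    rw [hz8]
    apply Real.rpow_lt_rpow_of_exponent_lt hb1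
    nlinarith
  have h50 : (b : ℝ) ^ ((L : ℝ) / 50) ≤ (b : ℝ) ^ ((L : ℝ) / 17) := by
    apply Real.rpow_le_rpow_of_exponent_le hb1.le
    apply div_le_div_of_nonneg_left hL0.le (by norm_num) (by norm_num)
  refine ⟨?_, ?_⟩
  swap
  · intro p hp
    have hpp := Nat.prime_of_mem_primeFactorsList hp
    have hpn := Nat.dvd_of_mem_primeFactorsList hp
    exact h25.trans_le (hbig p hpp hpn)
  set ly := 999 / 1000 * Real.log (Db b L) with hly
  have hly0 : 0 < ly := by positivity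
  have hlogy : Real.log (Db b L ^ (999 / 1000 : ℝ)) = ly := by rw [Real.log_rpow hD0]
  have hiff : ∀ p : ℕ, p.Prime → (Real.log p < ly ↔ (p : ℝ) < Db b L ^ (999 / 1000 : ℝ)) := by
    intro p hp
    rw [← hlogy]
    exact Real.log_lt_log_iff (by exact_mod_cast hp.pos) (by positivity)
  have hD1 : 1 ≤ Db b L := by
    unfold Db
    apply Real.one_le_rpow hb1.le
    have : (0 : ℝ) < 1 / 2 - 1 / 400 := by norm_num
    positivity
  have hyD : Db b L ^ (999 / 1000 : ℝ) ≤ Db b L := by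
    conv_rhs => rw [← Real.rpow_one (Db b L)]
    exact Real.rpow_le_rpow_of_exponent_le hD1 (by norm_num)
  have hom := omega_bound hnpos hly0 (by
    intro p hp hpn hlt
    apply hsq p
    · exact hcop p hp hpn
    · exact (h50.trans h25.le).trans (hbig p hp hpn)
    · exact (((hiff p hp).1 hlt).le).trans hyD)
  have hset : n.primeFactors.filter (fun p : ℕ => Real.log p < ly) =
      ((range ⌈Db b L ^ (999 / 1000 : ℝ)⌉₊).filter
      (fun p : ℕ => p.Prime ∧ ¬ p ∣ 10 ∧ Db b L ^ (1 / 8 : ℝ) ≤ p)).filter (fun p => p ∣ n) := by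
    ext p
    simp only [mem_filter, mem_range, Nat.mem_primeFactors]
    constructor
    · rintro ⟨⟨hp, hpn, _⟩, hlt⟩
      exact ⟨⟨Nat.lt_ceil.2 ((hiff p hp).1 hlt), hp, hnot p hp hpn, hbig p hp hpn⟩, hpn⟩
    · rintro ⟨⟨hlt, hp, _, _⟩, hpn⟩
      exact ⟨⟨hp, hpn, hn0⟩, (hiff p hp).2 (Nat.lt_ceil.1 hlt)⟩
  rw [hset] at hom
  have hlogn : Real.log n ≤ (2 * L + 1) * Real.log b := by
    have : (n : ℝ) ≤ (b : ℝ) ^ (2 * L + 1) := by exact_mod_cast h2.le
    calc Real.log n ≤ Real.log ((b : ℝ) ^ (2 * L + 1)) :=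
          Real.log_le_log (by exact_mod_cast hnpos) this
      _ = _ := by rw [Real.log_pow]; push_cast; ring
  have hratio : Real.log n / ly ≤ 403 / 100 := by
    rw [div_le_iff₀ hly0, hly, hlD]
    refine hlogn.trans ?_
    have : (2 * (L : ℝ) + 1) ≤ 403 / 100 * (999 / 1000 * ((1 / 2 - 1 / 400) * L)) := by nlinarith
    calc (2 * (L : ℝ) + 1) * Real.log b ≤
          403 / 100 * (999 / 1000 * ((1 / 2 - 1 / 400) * L)) * Real.log b :=
          mul_le_mul_of_nonneg_right this hl10.le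
      _ = _ := by ring
  have hlt : (n.primeFactorsList.length : ℝ) < 6 := by
    have h7 : ∑ p ∈ ((range ⌈Db b L ^ (999 / 1000 : ℝ)⌉₊).filter
      (fun p : ℕ => p.Prime ∧ ¬ p ∣ 10 ∧ Db b L ^ (1 / 8 : ℝ) ≤ p)).filter (fun p => p ∣ n),
        (1 - Real.log p / ly) < 20 / 11 := by linarith
    linarith
  have : n.primeFactorsList.length < 6 := by exact_mod_cast hlt
  omega

end Pool.Agent.H39R3.PS.Go192
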