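import Pool.Agent.H39R3.PS.Defs
import Pool.Agent.Helper112.Arith

/-! # Palindromes in base `b` divisible by squares of large integers (port of `Pool.Agent.H985R2.PalT9b`) -/

set_option autoImplicit false

namespace Pool.Agent.H39R3.PS.SD

open Finset Filter Topology Pool.Agent.Helper112 Pool.Agent.H39R3.PB Pool.Agent.H39R3.PS

/-- covering by dyadic blocks -/
lemma cover (b L : ℕ) (E : Finset ℕ) (Z : ℝ) (hZ : ∀ e ∈ E,
    ∑ m ∈ (Ico (2 ^ e) (2 * 2 ^ e)).filter (fun m => m.Coprime (2 * b)), cnt b L (m ^ 2) 0 ≤ Z)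
    (Q : (Fin L → Fin b) → Prop) [DecidablePred Q]
    (hQ : ∀ m, Q m → ∃ e ∈ E, ∃ p : ℕ, 2 ^ e ≤ p ∧ p < 2 * 2 ^ e ∧ p.Coprime (2 * b) ∧
      p ^ 2 ∣ pv b L m) :
    (((univ : Finset (Fin L → Fin b)).filter Q).card : ℝ) ≤ E.card * Z := by
  classical
  have hsub : (univ : Finset (Fin L → Fin b)).filter Q ⊆
      E.biUnion fun e => ((Ico (2 ^ e) (2 * 2 ^ e)).filter (fun m => m.Coprime (2 * b))).biUnion
        fun p => (univ : Finset (Fin L → Fin b)).filter (fun m => pv b L m ≡ 0 [MOD p ^ 2]) := by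
    intro m hm
    obtain ⟨e, he, p, h1, h2, h3, h4⟩ := hQ m (Finset.mem_filter.1 hm).2
    rw [Finset.mem_biUnion]
    refine ⟨e, he, ?_⟩
    rw [Finset.mem_biUnion]
    refine ⟨p, ?_, ?_⟩
    · rw [Finset.mem_filter, Finset.mem_Ico]; exact ⟨⟨h1, h2⟩, h3⟩
    · rw [Finset.mem_filter]
      exact ⟨Finset.mem_univ _, Nat.modEq_zero_iff_dvd.2 h4⟩
  have h1 : (((univ : Finset (Fin L → Fin b)).filter Q).card : ℝ) ≤
      ∑ e ∈ E, ∑ p ∈ (Ico (2 ^ e) (2 * 2 ^ e)).filter (fun m => m.Coprime (2 * b)),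
        cnt b L (p ^ 2) 0 := by
    have h2 : ((univ : Finset (Fin L → Fin b)).filter Q).card ≤
        ∑ e ∈ E, ∑ p ∈ (Ico (2 ^ e) (2 * 2 ^ e)).filter (fun m => m.Coprime (2 * b)),
          ((univ : Finset (Fin L → Fin b)).filter (fun m => pv b L m ≡ 0 [MOD p ^ 2])).card := by
      refine (Finset.card_le_card hsub).trans (Finset.card_biUnion_le.trans ?_)
      exact Finset.sum_le_sum fun e _ => Finset.card_biUnion_le
    have h3 : (((univ : Finset (Fin L → Fin b)).filter Q).card : ℝ) ≤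
        ((∑ e ∈ E, ∑ p ∈ (Ico (2 ^ e) (2 * 2 ^ e)).filter (fun m => m.Coprime (2 * b)),
          ((univ : Finset (Fin L → Fin b)).filter
            (fun m => pv b L m ≡ 0 [MOD p ^ 2])).card : ℕ) : ℝ) := by
      exact_mod_cast h2
    refine h3.trans (le_of_eq ?_)
    push_cast
    refine Finset.sum_congr rfl fun e _ => Finset.sum_congr rfl fun p _ => ?_
    unfold cnt
    rfl
  refine h1.trans ((Finset.sum_le_sum hZ).trans (le_of_eq ?_))
  rw [Finset.sum_const, nsmul_eq_mul]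

open Classical in
/-- T9b (file T9.lean) -/
theorem squares (b : ℕ) (hb : 2 ≤ b) (hblk : SqBlockB b) (ε : ℝ) (hε : 0 < ε) (A : ℕ) : ∀ᶠ L : ℕ in atTop,
    (((univ : Finset (Fin L → Fin b)).filter (fun m => ∃ p : ℕ, p.Coprime (2 * b) ∧
      (b : ℝ) ^ ((L : ℝ) / 50) ≤ p ∧ (p : ℝ) ≤ (b : ℝ) ^ ((1 / 2 - ε) * L) ∧ p ^ 2 ∣ pv b L m)).card : ℝ)
      ≤ (b : ℝ) ^ L / (L : ℝ) ^ A := by
  have hbR : (2 : ℝ) ≤ b := by exact_mod_cast hb
  have hb0 : (0 : ℝ) < b := by linarith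
  have hb1 : (1 : ℝ) < b := by linarith
  obtain ⟨c0, hc0⟩ : ∃ c0 : ℝ, min (ε / 4) (1 / 400) = c0 := ⟨_, rfl⟩
  have hc0pos : 0 < c0 := by rw [← hc0]; positivity
  have hc0e : c0 ≤ ε / 4 := by rw [← hc0]; exact min_le_left _ _
  have hc04 : c0 ≤ 1 / 400 := by rw [← hc0]; exact min_le_right _ _
  obtain ⟨ρ, hρ⟩ : ∃ ρ : ℝ, (3 / 4 : ℝ) ^ (c0 / 2) = ρ := ⟨_, rfl⟩
  have hρ0 : 0 < ρ := by rw [← hρ]; positivity
  have hρ1 : ρ < 1 := by
    rw [← hρ]
    exact Real.rpow_lt_one (by norm_num) (by norm_num) (by positivity)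
  obtain ⟨δ, hδ⟩ : ∃ δ : ℝ, Real.logb b (ρ⁻¹) / 2 = δ := ⟨_, rfl⟩
  have hδ0 : 0 < δ := by
    rw [← hδ]
    have := Real.logb_pos (b := (b : ℝ)) hb1 ((one_lt_inv₀ hρ0).2 hρ1)
    linarith
  have hbr : (b : ℝ) ^ (2 * δ) = ρ⁻¹ := by
    rw [← hδ, mul_div_cancel₀ _ (two_ne_zero)]
    exact Real.rpow_logb hb0 hb1.ne' (inv_pos.2 hρ0)
  obtain ⟨C, hC0, hC⟩ := divisor_bound δ hδ0
  have hlim := tendsto_pow_const_mul_const_pow_of_abs_lt_one (A + 1) (r := ρ)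
    (by rw [abs_of_pos hρ0]; exact hρ1)
  have hK0 : (0 : ℝ) < 10 * b * b * C * (b : ℝ) ^ δ * (4 / 3) := by positivity
  have hev : ∀ᶠ L : ℕ in atTop, (L : ℝ) ^ (A + 1) * ρ ^ L <
      (10 * b * b * C * (b : ℝ) ^ δ * (4 / 3))⁻¹ :=
    hlim.eventually (gt_mem_nhds (inv_pos.2 hK0))
  filter_upwards [hev, eventually_ge_atTop 400] with L hL1 hL2
  have hL0 : (0 : ℝ) < L := by
    have : 0 < L := by omega
    exact_mod_cast this
  have hL400 : (400 : ℝ) ≤ L := by exact_mod_cast hL2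
  obtain ⟨k, hk⟩ : ∃ k : ℕ, ⌊c0 * L⌋₊ = k := ⟨_, rfl⟩
  have hkle : (k : ℝ) ≤ c0 * L := by rw [← hk]; exact Nat.floor_le (by positivity)
  have hkge : c0 * L - 1 ≤ k := by
    rw [← hk]
    have := Nat.lt_floor_add_one (c0 * L)
    linarith
  obtain ⟨T, hTdef⟩ : ∃ T : ℝ, C * ((b : ℝ) ^ (2 * L + 1)) ^ δ = T := ⟨_, rfl⟩
  have hT : ∀ n : ℕ, 1 ≤ n → n ≤ b ^ (2 * L + 1) → (n.divisors.card : ℝ) ≤ T := by
    intro n h1 h2
    refine (hC n h1).trans ?_
    rw [← hTdef]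
    refine mul_le_mul_of_nonneg_left ?_ hC0.le
    refine Real.rpow_le_rpow (Nat.cast_nonneg _) ?_ hδ0.le
    exact_mod_cast h2
  have hTval : T = C * (b : ℝ) ^ δ * (ρ⁻¹) ^ L := by
    rw [← hTdef, ← hbr, ← Real.rpow_natCast, ← Real.rpow_natCast, ← Real.rpow_mul hb0.le,
      ← Real.rpow_mul hb0.le, mul_assoc C, ← Real.rpow_add hb0]
    congr 2
    push_cast
    ring
  have hlamk : (3 / 4 : ℝ) ^ k ≤ (ρ ^ L) ^ 2 * (4 / 3) := by
    have e1 : (3 / 4 : ℝ) ^ k ≤ (3 / 4 : ℝ) ^ (c0 * L - 1) := by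
      rw [← Real.rpow_natCast]
      exact Real.rpow_le_rpow_of_exponent_ge (by norm_num) (by norm_num) hkge
    refine e1.trans (le_of_eq ?_)
    rw [← hρ, ← pow_mul, ← Real.rpow_natCast, ← Real.rpow_mul (by norm_num),
      Real.rpow_sub (by norm_num), Real.rpow_one]
    have e2 : c0 / 2 * ((L * 2 : ℕ) : ℝ) = c0 * L := by push_cast; ring
    rw [e2]
    norm_num
    ring
  -- dyadic blocks
  let E : Finset ℕ := (range (b * L)).filter fun e =>
    4 * k ≤ Nat.log b (2 ^ e) ∧ 1 ≤ Nat.log b (2 ^ e) ∧ 4 * k + 2 * Nat.log b (2 ^ e) ≤ L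
  have hE : ∀ e ∈ E,
      ∑ m ∈ (Ico (2 ^ e) (2 * 2 ^ e)).filter (fun m => m.Coprime (2 * b)), cnt b L (m ^ 2) 0 ≤
        10 * b * (b : ℝ) ^ L * T * (3 / 4) ^ k := by
    intro e he
    obtain ⟨_, h1, h2, h3⟩ := Finset.mem_filter.1 he
    refine hblk L k (Nat.log b (2 ^ e)) (2 ^ e) T hT h1 h2 h3
      (Nat.pow_log_le_self b (by positivity)) ?_
    have := Nat.lt_pow_succ_log_self (b := b) (by omega) (2 ^ e)
    rw [pow_succ, mul_comm] at this
    exact this.le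
  have hcov := cover b L E _ hE (fun m => ∃ p : ℕ, p.Coprime (2 * b) ∧
      (b : ℝ) ^ ((L : ℝ) / 50) ≤ p ∧ (p : ℝ) ≤ (b : ℝ) ^ ((1 / 2 - ε) * L) ∧ p ^ 2 ∣ pv b L m) (by
    rintro m ⟨p, hp1, hp2, hp3, hp4⟩
    have hp0 : p ≠ 0 := by
      rintro rfl
      have : (0 : ℝ) < (b : ℝ) ^ ((L : ℝ) / 50) := by positivity
      rw [Nat.cast_zero] at hp2
      linarith
    have hlow : 2 ^ Nat.log 2 p ≤ p := Nat.pow_log_le_self 2 hp0
    have hupp : p < 2 * 2 ^ Nat.log 2 p := by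
      have := Nat.lt_pow_succ_log_self (b := 2) (by norm_num) p
      rwa [pow_succ'] at this
    obtain ⟨J, hJ⟩ : ∃ J, Nat.log b (2 ^ Nat.log 2 p) = J := ⟨_, rfl⟩
    have hJ1 : b ^ J ≤ 2 ^ Nat.log 2 p := by
      rw [← hJ]; exact Nat.pow_log_le_self b (by positivity)
    have hJ2 : 2 ^ Nat.log 2 p < b ^ (J + 1) := by
      rw [← hJ]; exact Nat.lt_pow_succ_log_self (b := b) (by omega) _
    -- `J ≤ (1/2 - ε) L`
    have hJup : (J : ℝ) ≤ (1 / 2 - ε) * L := by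
      have h1 : (b : ℝ) ^ (J : ℝ) ≤ (b : ℝ) ^ ((1 / 2 - ε) * L) := by
        rw [Real.rpow_natCast]
        refine le_trans ?_ hp3
        exact_mod_cast hJ1.trans hlow
      exact (Real.rpow_le_rpow_left_iff hb1).1 h1
    have hJlow : (L : ℝ) / 50 ≤ J + 2 := by
      have h1 : (b : ℝ) ^ ((L : ℝ) / 50) ≤ (b : ℝ) ^ ((J : ℝ) + 2) := by
        refine hp2.trans ?_
        have h2 : p ≤ b ^ (J + 2) := by
          have e1 : b ^ (J + 2) = b * b ^ (J + 1) := by rw [pow_succ']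
          have e2 : 2 * b ^ (J + 1) ≤ b * b ^ (J + 1) := Nat.mul_le_mul_right _ hb
          rw [e1]
          omega
        have h3 : (b : ℝ) ^ ((J : ℝ) + 2) = (b : ℝ) ^ (J + 2) := by
          rw [← Real.rpow_natCast]
          push_cast
          rfl
        rw [h3]
        exact_mod_cast h2
      exact (Real.rpow_le_rpow_left_iff hb1).1 h1
    have h4kJ : 4 * k ≤ J := by
      have : (4 : ℝ) * k ≤ J := by nlinarith
      exact_mod_cast this
    have hJpos : 1 ≤ J := by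
      have : (1 : ℝ) ≤ J := by linarith
      exact_mod_cast this
    have h4k2J : 4 * k + 2 * J ≤ L := by
      have : (4 : ℝ) * k + 2 * J ≤ L := by nlinarith
      exact_mod_cast this
    have hlog : Nat.log 2 p < b * L := by
      have h1 : (2 : ℕ) ^ Nat.log 2 p < 2 ^ (b * L) := by
        refine lt_of_lt_of_le hJ2 ?_
        calc (b : ℕ) ^ (J + 1) ≤ b ^ L := Nat.pow_le_pow_right (by omega) (by omega)
          _ ≤ (2 ^ b) ^ L := Nat.pow_le_pow_left Nat.lt_two_pow_self.le L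
          _ = 2 ^ (b * L) := by rw [pow_mul]
      exact (Nat.pow_lt_pow_iff_right (by norm_num)).1 h1
    refine ⟨Nat.log 2 p, ?_, p, hlow, hupp, hp1, hp4⟩
    rw [Finset.mem_filter, Finset.mem_range, hJ]
    exact ⟨hlog, h4kJ, hJpos, h4k2J⟩)
  refine hcov.trans ?_
  have hEc : (E.card : ℝ) ≤ b * L := by
    have : E.card ≤ b * L := by
      refine (Finset.card_filter_le _ _).trans ?_
      rw [Finset.card_range]
    exact_mod_cast this
  have hT0 : 0 ≤ T := by rw [hTval]; positivity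
  have hr : ρ ^ L ≠ 0 := (pow_pos hρ0 L).ne'
  calc (E.card : ℝ) * (10 * b * (b : ℝ) ^ L * T * (3 / 4) ^ k) ≤
      (b * L) * (10 * b * (b : ℝ) ^ L * T * ((ρ ^ L) ^ 2 * (4 / 3))) := by
        refine mul_le_mul hEc ?_ (by positivity) (by positivity)
        exact mul_le_mul_of_nonneg_left hlamk (by positivity)
    _ = (b : ℝ) ^ L * ((10 * b * b * C * (b : ℝ) ^ δ * (4 / 3)) * (L * ρ ^ L)) := by
        rw [hTval, inv_pow]
        field_simp
    _ ≤ (b : ℝ) ^ L * (1 / (L : ℝ) ^ A) := by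
        refine mul_le_mul_of_nonneg_left ?_ (by positivity)
        rw [le_div_iff₀ (by positivity)]
        have e1 : (10 * b * b * C * (b : ℝ) ^ δ * (4 / 3)) * (L * ρ ^ L) * (L : ℝ) ^ A =
            (10 * b * b * C * (b : ℝ) ^ δ * (4 / 3)) * ((L : ℝ) ^ (A + 1) * ρ ^ L) := by
          rw [pow_succ]; ring
        rw [e1]
        calc (10 * b * b * C * (b : ℝ) ^ δ * (4 / 3)) * ((L : ℝ) ^ (A + 1) * ρ ^ L) ≤
            (10 * b * b * C * (b : ℝ) ^ δ * (4 / 3)) * (10 * b * b * C * (b : ℝ) ^ δ * (4 / 3))⁻¹ :=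
              mul_le_mul_of_nonneg_left hL1.le hK0.le
          _ = 1 := mul_inv_cancel₀ hK0.ne'
    _ = (b : ℝ) ^ L / (L : ℝ) ^ A := by ring

end Pool.Agent.H39R3.PS.SD

namespace Pool.Agent.H39R3.PS

theorem taskSD : TaskSD := fun b hb hblk ε hε A => SD.squares b hb hblk ε hε A

end Pool.Agent.H39R3.PS
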