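import Mathlib
import Pool.Agent.H39R3.PS.Defs

set_option autoImplicit false

namespace Pool.Agent.H39R3.PSTr

open Finset Pool.Agent.H39R3.PS
open Pool.Agent.H476R2.Pal (PZ VZ sift rem Rem)

lemma decomp {B : ℕ} (hB : 1 ≤ B) : ∀ k q : ℕ, 1 ≤ q → q < 2 ^ k →
    ∃ x : ℕ × ℕ, q = x.1 * x.2 ∧ x.1 ∣ B ^ k ∧ x.2.Coprime B := by
  intro k
  induction k with
  | zero => intro q h1 h2; simp at h2; omega
  | succ k ih =>
    intro q h1 h2
    by_cases hc : q.Coprime B
    · exact ⟨(1, q), by simp, one_dvd _, hc⟩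
    · have hg0 : 0 < q.gcd B := Nat.gcd_pos_of_pos_left _ h1
      have hg : 2 ≤ q.gcd B := by
        have : q.gcd B ≠ 1 := hc
        omega
      obtain ⟨c, hcq⟩ := Nat.gcd_dvd_left q B
      have hc1 : 1 ≤ c := by
        rcases Nat.eq_zero_or_pos c with h | h
        · subst h; simp at hcq; omega
        · exact h
      have hlt : c < 2 ^ k := by
        have : 2 * c ≤ q := by
          calc 2 * c ≤ q.gcd B * c := Nat.mul_le_mul_right _ hg
            _ = q := hcq.symm
        rw [pow_succ] at h2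
        omega
      obtain ⟨x, hx1, hx2, hx3⟩ := ih c hc1 hlt
      refine ⟨(q.gcd B * x.1, x.2), ?_, ?_, hx3⟩
      · simp only
        calc q = q.gcd B * c := hcq
          _ = _ := by rw [hx1]; ring
      · rw [pow_succ, mul_comm (B ^ k) B]
        exact mul_dvd_mul (Nat.gcd_dvd_right q B) hx2

lemma totient_pow (B : ℕ) (hB : 1 ≤ B) (k : ℕ) : (B ^ (k + 1)).totient = B ^ k * B.totient := by
  induction k with
  | zero => simp
  | succ k ih =>
    have h := Nat.totient_gcd_mul_totient_mul (B ^ (k + 1)) B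
    have hg : (B ^ (k + 1)).gcd B = B := Nat.gcd_eq_right (dvd_pow_self B (by omega))
    rw [hg, ih] at h
    have hp : 0 < B.totient := Nat.totient_pos.2 hB
    rw [pow_succ B (k + 1)]
    have h2 : B.totient * (B ^ (k + 1) * B).totient = B.totient * (B ^ (k + 1) * B.totient) := by
      rw [h, pow_succ B k]; ring
    exact Nat.eq_of_mul_eq_mul_left hp h2

lemma card_mult {M q : ℕ} (hq : 1 ≤ q) (h : q ∣ M) : ((range M).filter (fun r => q ∣ r)).card = M / q := by
  have : (range M).filter (fun r => q ∣ r) = (range (M / q)).image (fun c => q * c) := by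
    ext r
    simp only [mem_filter, mem_range, mem_image]
    constructor
    · rintro ⟨h1, c, rfl⟩
      refine ⟨c, ?_, rfl⟩
      rw [Nat.lt_div_iff_mul_lt' h]
      exact h1
    · rintro ⟨c, hc, rfl⟩
      rw [Nat.lt_div_iff_mul_lt' h] at hc
      exact ⟨hc, dvd_mul_right _ _⟩
  rw [this, card_image_of_injective _ (fun a b hab => Nat.eq_of_mul_eq_mul_left (by omega) hab), card_range]

theorem taskTr : TaskTr := by
  classical
  intro B hB hB10 ι S v X D hX hD hv
  obtain ⟨k, hk⟩ : ∃ k : ℕ, ⌊D⌋₊ < 2 ^ k := ⟨⌊D⌋₊, Nat.lt_two_pow_self⟩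
  set M := B ^ (k + 1) with hM
  have hM0 : 0 < M := by positivity
  have hkk : ⌊D⌋₊ < 2 ^ (k + 1) := hk.trans (Nat.pow_lt_pow_right (by norm_num) (by omega))
  refine ⟨M, fun x => v x.1 * Nat.gcd x.2 M, hM0, ?_, ?_⟩
  · intro z hz d hd
    have hfil : (S ×ˢ range M).filter (fun x : ι × ℕ => d ∣ v x.1 * Nat.gcd x.2 M ∧
        (v x.1 * Nat.gcd x.2 M).Coprime (PZ z)) =
        (S.filter (fun i => d ∣ v i ∧ (v i).Coprime (PZ z))) ×ˢ (range M).filter (fun r => M.Coprime r) := by
      ext ⟨i, r⟩
      simp only [mem_filter, mem_product, mem_range]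
      constructor
      · rintro ⟨⟨hi, hr⟩, h1, h2⟩
        have hg : Nat.gcd r M = 1 := by
          by_contra hne
          obtain ⟨p, hp, hpg⟩ := Nat.exists_prime_and_dvd hne
          have hpB : p ∣ B := hp.dvd_of_dvd_pow (hpg.trans (Nat.gcd_dvd_right r M))
          have hpz : p < z := (Nat.le_of_dvd hB hpB).trans_lt hz
          have hp10 : ¬ p ∣ 10 := by
            intro h
            have := Nat.dvd_gcd hpB h
            rw [hB10] at this
            exact hp.one_lt.ne' (Nat.dvd_one.1 this)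
          have hpP : p ∣ PZ z := by
            unfold PZ
            exact dvd_prod_of_mem (fun p => p) (by rw [mem_filter, mem_range]; exact ⟨hpz, hp, hp10⟩)
          have := Nat.dvd_gcd (hpg.mul_left (v i)) hpP
          rw [h2] at this
          exact hp.one_lt.ne' (Nat.dvd_one.1 this)
        rw [hg, mul_one] at h1 h2
        exact ⟨⟨hi, h1, h2⟩, hr, Nat.coprime_comm.1 hg⟩
      · rintro ⟨⟨hi, h1, h2⟩, hr, h3⟩
        have hg : Nat.gcd r M = 1 := Nat.coprime_comm.1 h3
        rw [hg, mul_one]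
        exact ⟨⟨hi, hr⟩, h1, h2⟩
    unfold sift
    rw [hfil, card_product]
    have ht : ((range M).filter (fun r => M.Coprime r)).card = M.totient := rfl
    rw [ht, hM, totient_pow B hB k]
    have hB0 : (B : ℝ) ≠ 0 := by positivity
    push_cast
    rw [pow_succ]
    field_simp
  · -- the remainder
    have hkey : ∀ q ∈ (Icc 1 ⌊D⌋₊).filter (fun q => q.Coprime 10), ∃ x : ℕ × ℕ, q = x.1 * x.2 ∧
        x.1 ∣ M ∧ x.2.Coprime B := by
      intro q hq
      rw [mem_filter, mem_Icc] at hq
      exact decomp hB (k + 1) q hq.1.1 (hq.1.2.trans_lt hkk)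
    choose! f hf using hkey
    set T := (Icc 1 ⌊D⌋₊).filter (fun q => q.Coprime 10) with hT
    set G : ℕ × ℕ → ℝ := fun x => ((x.1.divisors.card : ℝ) ^ 2 / x.1) *
      ((x.2.divisors.card : ℝ) ^ 2 * |rem S v X x.2|) with hG
    have hterm : ∀ q ∈ T, (q.divisors.card : ℝ) ^ 2 *
        |rem (S ×ˢ range M) (fun x => v x.1 * Nat.gcd x.2 M) (X * M) q| = M * G (f q) := by
      intro q hq
      obtain ⟨h1, h2, h3⟩ := hf q hq
      have hq1 : 1 ≤ q := by
        rw [hT, mem_filter, mem_Icc] at hq
        exact hq.1.1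
      have ha : 1 ≤ (f q).1 := by
        rcases Nat.eq_zero_or_pos (f q).1 with h | h
        · rw [h, zero_mul] at h1; omega
        · exact h
      have hb : 1 ≤ (f q).2 := by
        rcases Nat.eq_zero_or_pos (f q).2 with h | h
        · rw [h, mul_zero] at h1; omega
        · exact h
      have hcop : (f q).1.Coprime (f q).2 :=
        Nat.Coprime.coprime_dvd_left h2 (Nat.Coprime.pow_left _ (Nat.coprime_comm.1 h3))
      have hdc : (q.divisors.card : ℝ) = (f q).1.divisors.card * (f q).2.divisors.card := by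
        conv_lhs => rw [h1]
        rw [hcop.card_divisors_mul]
        push_cast; ring
      have hcard : (((S ×ˢ range M).filter (fun x : ι × ℕ => q ∣ v x.1 * Nat.gcd x.2 M)).card : ℝ) =
          (S.filter (fun i => (f q).2 ∣ v i)).card * (M / (f q).1) := by
        have hfil : (S ×ˢ range M).filter (fun x : ι × ℕ => q ∣ v x.1 * Nat.gcd x.2 M) =
            (S.filter (fun i => (f q).2 ∣ v i)) ×ˢ (range M).filter (fun r => (f q).1 ∣ r) := by
          ext ⟨i, r⟩
          simp only [mem_filter, mem_product, mem_range]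
          constructor
          · rintro ⟨⟨hi, hr⟩, h4⟩
            have hc1 : (f q).1.Coprime (v i) :=
              Nat.Coprime.coprime_dvd_left h2 (Nat.Coprime.pow_left _ (Nat.coprime_comm.1 (hv i hi)))
            have hc2 : (f q).2.Coprime (Nat.gcd r M) :=
              Nat.Coprime.coprime_dvd_right (Nat.gcd_dvd_right r M) (Nat.Coprime.pow_right _ h3)
            have h5 : (f q).1 ∣ v i * Nat.gcd r M := (Dvd.intro _ h1.symm).trans h4
            have h6 : (f q).2 ∣ v i * Nat.gcd r M := (Dvd.intro_left _ h1.symm).trans h4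
            exact ⟨⟨hi, hc2.dvd_of_dvd_mul_right h6⟩, hr,
              (hc1.dvd_of_dvd_mul_left h5).trans (Nat.gcd_dvd_left r M)⟩
          · rintro ⟨⟨hi, h4⟩, hr, h5⟩
            refine ⟨⟨hi, hr⟩, ?_⟩
            conv_lhs => rw [h1]
            rw [mul_comm (f q).1]
            exact mul_dvd_mul h4 (Nat.dvd_gcd h5 h2)
        rw [hfil, card_product, card_mult ha h2]
        push_cast
        rw [Nat.cast_div h2 (by positivity)]
      have hrem : rem (S ×ˢ range M) (fun x => v x.1 * Nat.gcd x.2 M) (X * M) q =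
          M / (f q).1 * rem S v X (f q).2 := by
        unfold rem
        rw [hcard]
        have hqr : (q : ℝ) = (f q).1 * (f q).2 := by exact_mod_cast h1
        have ha' : ((f q).1 : ℝ) ≠ 0 := by positivity
        have hb' : ((f q).2 : ℝ) ≠ 0 := by positivity
        rw [hqr]
        field_simp
      rw [hrem, hdc, abs_mul, abs_of_nonneg (by positivity : (0 : ℝ) ≤ M / (f q).1)]
      simp only [hG]
      ring
    have hG0 : ∀ x, 0 ≤ G x := fun x => by simp only [hG]; positivity
    have hinj : Set.InjOn f T := by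
      intro a ha b hb hab
      rw [(hf a ha).1, (hf b hb).1, hab]
    have hsub : T.image f ⊆ (Icc 1 ⌊D⌋₊) ×ˢ (Icc 1 ⌊D⌋₊).filter (fun q => q.Coprime (10 * B)) := by
      intro x hx
      rw [mem_image] at hx
      obtain ⟨q, hq, rfl⟩ := hx
      obtain ⟨h1, h2, h3⟩ := hf q hq
      rw [hT, mem_filter, mem_Icc] at hq
      have ha : 1 ≤ (f q).1 := by
        rcases Nat.eq_zero_or_pos (f q).1 with h | h
        · rw [h, zero_mul] at h1; omega
        · exact h
      have hb : 1 ≤ (f q).2 := by
        rcases Nat.eq_zero_or_pos (f q).2 with h | h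
        · rw [h, mul_zero] at h1; omega
        · exact h
      have hd1 : (f q).1 ≤ q := Nat.le_of_dvd (by omega) (Dvd.intro _ h1.symm)
      have hd2 : (f q).2 ≤ q := Nat.le_of_dvd (by omega) (Dvd.intro_left _ h1.symm)
      rw [mem_product, mem_Icc, mem_filter, mem_Icc]
      refine ⟨⟨ha, hd1.trans hq.1.2⟩, ⟨hb, hd2.trans hq.1.2⟩, ?_⟩
      exact Nat.Coprime.mul_right (Nat.Coprime.coprime_dvd_left (Dvd.intro_left _ h1.symm) hq.2) h3
    unfold Rem
    rw [sum_congr rfl hterm, ← mul_sum, mul_assoc]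
    refine mul_le_mul_of_nonneg_left ?_ (Nat.cast_nonneg _)
    rw [← sum_image hinj]
    refine (sum_le_sum_of_subset_of_nonneg hsub fun x _ _ => hG0 x).trans (le_of_eq ?_)
    rw [sum_product, sum_mul]
    refine sum_congr rfl fun a _ => ?_
    rw [mul_sum]

end Pool.Agent.H39R3.PSTr
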